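import Pool.Agent.Helper53.AE.GoalsB

/-!
# Project AE (MP_8130e1_an), packet FWA: the window elements, algebraic part
-/

set_option autoImplicit false

open scoped ComplexOrder Topology
open Filter TopologicalSpace

namespace Pool.Agent.Helper32.AE.FWA

open Pool.Agent.Helper53.AE

variable {M : Type} [CStarAlgebra M]

/-- differences -/
def q (p : ℕ → M) (k : ℕ) : M := p (k + 1) - p k

/-- real combinations of the differences -/
noncomputable def S (p : ℕ → M) (a : ℕ → ℝ) (L : ℕ) : M :=
  ∑ k ∈ Finset.range L, (a k : ℂ) • q p k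

/-- increasing projections -/
structure Inc (p : ℕ → M) : Prop where
  zero : p 0 = 0
  st : ∀ k, star (p k) = p k
  l : ∀ i j, i ≤ j → p i * p j = p i
  r : ∀ i j, i ≤ j → p j * p i = p i

lemma inc_of {p : ℕ → M} (h0 : p 0 = 0) (hp : ∀ k, Pj (p k)) (h : ∀ k, p (k + 1) * p k = p k) :
    Inc p := by
  have hr : ∀ i j, i ≤ j → p j * p i = p i := by
    intro i j hij
    induction j, hij using Nat.le_induction with
    | base => exact (hp i).2
    | succ j hij ih => rw [← ih, ← mul_assoc, h]
  refine ⟨h0, fun k => (hp k).1, fun i j hij => ?_, hr⟩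
  have := congrArg star (hr i j hij)
  rwa [star_mul, (hp i).1, (hp j).1] at this

variable {p : ℕ → M}

lemma qq (h : Inc p) (i j : ℕ) : q p i * q p j = if i = j then q p i else 0 := by
  unfold q
  rw [sub_mul, mul_sub, mul_sub]
  split_ifs with hij
  · subst hij
    rw [h.r _ _ le_rfl, h.r _ _ (Nat.le_succ i), h.l _ _ (Nat.le_succ i), h.r _ _ le_rfl]
    abel
  · rcases lt_or_gt_of_ne hij with hl | hl
    · rw [h.l _ _ (by omega), h.l _ _ (by omega), h.l _ _ (by omega), h.l _ _ (by omega)]
      abel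
    · rw [h.r _ _ (by omega), h.r _ _ (by omega), h.r _ _ (by omega), h.r _ _ (by omega)]
      abel

lemma q_star (h : Inc p) (k : ℕ) : star (q p k) = q p k := by
  unfold q
  rw [star_sub, h.st, h.st]

lemma S_mul (h : Inc p) (a b : ℕ → ℝ) (L : ℕ) : S p a L * S p b L = S p (fun k => a k * b k) L := by
  unfold S
  rw [Finset.sum_mul_sum]
  apply Finset.sum_congr rfl
  intro i hi
  have : ∀ j ∈ Finset.range L, ((a i : ℂ) • q p i) * ((b j : ℂ) • q p j) =
      if i = j then ((a i * b i : ℝ) : ℂ) • q p i else 0 := by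
    intro j _
    rw [smul_mul_smul_comm, qq h]
    split_ifs with hij
    · subst hij
      rw [Complex.ofReal_mul]
    · rw [smul_zero]
  rw [Finset.sum_congr rfl this, Finset.sum_ite_eq, if_pos hi]

lemma S_star (h : Inc p) (a : ℕ → ℝ) (L : ℕ) : star (S p a L) = S p a L := by
  unfold S
  rw [star_sum]
  apply Finset.sum_congr rfl
  intro k _
  rw [star_smul, q_star h, Complex.star_def, Complex.conj_ofReal]

lemma S_add (a b : ℕ → ℝ) (L : ℕ) : S p a L + S p b L = S p (fun k => a k + b k) L := by
  unfold S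
  rw [← Finset.sum_add_distrib]
  apply Finset.sum_congr rfl
  intro k _
  rw [← add_smul, Complex.ofReal_add]

lemma S_congr {a b : ℕ → ℝ} {L : ℕ} (h : ∀ k < L, a k = b k) : S p a L = S p b L := by
  unfold S
  apply Finset.sum_congr rfl
  intro k hk
  rw [h k (Finset.mem_range.mp hk)]

lemma S_ext {a : ℕ → ℝ} {L L' : ℕ} (hL : L ≤ L') (h : ∀ k, L ≤ k → a k = 0) :
    S p a L = S p a L' := by
  unfold S
  apply Finset.sum_subset (Finset.range_mono hL)
  intro k _ hk
  rw [Finset.mem_range, not_lt] at hk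
  rw [h k hk, Complex.ofReal_zero, zero_smul]

lemma S_one (h : Inc p) (m L : ℕ) (hm : m ≤ L) : S p (fun k => if k < m then 1 else 0) L = p m := by
  rw [← S_ext hm (fun k hk => if_neg (not_lt.mpr hk))]
  have : S p (fun k => if k < m then 1 else 0) m = ∑ k ∈ Finset.range m, (p (k + 1) - p k) := by
    unfold S q
    apply Finset.sum_congr rfl
    intro k hk
    have hk' : (if k < m then (1 : ℝ) else 0) = 1 := if_pos (Finset.mem_range.mp hk)
    show (((if k < m then (1 : ℝ) else 0) : ℝ) : ℂ) • (p (k + 1) - p k) = _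
    rw [hk', Complex.ofReal_one, one_smul]
  rw [this, Finset.sum_range_sub, h.zero, sub_zero]

lemma norm_p (h : Inc p) (k : ℕ) : ‖p k‖ ≤ 1 := by
  have h1 : ‖star (p k) * p k‖ = ‖p k‖ * ‖p k‖ := CStarRing.norm_star_mul_self
  rw [h.st, h.r _ _ le_rfl] at h1
  by_contra hc
  push Not at hc
  nlinarith

lemma S_norm (h : Inc p) (a : ℕ → ℝ) (L : ℕ) (h0 : ∀ k, 0 ≤ a k) (h1 : ∀ k, a k ≤ 1) :
    ‖S p a L‖ ≤ 1 := by
  let _ : PartialOrder M := CStarAlgebra.spectralOrder M
  have _ : StarOrderedRing M := CStarAlgebra.spectralOrderedRing M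
  have e1 : S p a L * S p a L + S p (fun k => Real.sqrt (1 - a k * a k)) L *
      S p (fun k => Real.sqrt (1 - a k * a k)) L = p L := by
    rw [S_mul h, S_mul h, S_add, ← S_one h L L le_rfl]
    apply S_congr
    intro k hk
    rw [if_pos hk, Real.mul_self_sqrt]
    · ring
    · nlinarith [h0 k, h1 k]
  have e2 : 0 ≤ S p a L * S p a L := by
    have := star_mul_self_nonneg (S p a L)
    rwa [S_star h] at this
  have e3 : 0 ≤ S p (fun k => Real.sqrt (1 - a k * a k)) L *
      S p (fun k => Real.sqrt (1 - a k * a k)) L := by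
    have := star_mul_self_nonneg (S p (fun k => Real.sqrt (1 - a k * a k)) L)
    rwa [S_star h] at this
  have e4 : S p a L * S p a L ≤ p L := by
    rw [← e1]
    exact le_add_of_nonneg_right e3
  have e5 : ‖S p a L * S p a L‖ ≤ ‖p L‖ := CStarAlgebra.norm_le_norm_of_nonneg_of_le e2 e4
  have e6 : ‖star (S p a L) * S p a L‖ = ‖S p a L‖ * ‖S p a L‖ := CStarRing.norm_star_mul_self
  rw [S_star h] at e6
  have e7 := norm_p h L
  by_contra hc
  push Not at hc
  nlinarith

lemma S_sum (n : ℕ) (a : ℕ → ℕ → ℝ) (L : ℕ) :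
    ∑ i ∈ Finset.range n, S p (a i) L = S p (fun k => ∑ i ∈ Finset.range n, a i k) L := by
  unfold S
  rw [Finset.sum_comm]
  apply Finset.sum_congr rfl
  intro k _
  rw [← Finset.sum_smul, Complex.ofReal_sum]

/-- **FWA**. -/
theorem t : S_FWA := by
  intro M _ D hE p h0 hp hinc htend N c hN0 hN hc0 hcz hc1
  have h : Inc p := inc_of h0 (fun k => (hp k).2) hinc
  have hNm : StrictMono N := strictMono_nat_of_lt_succ hN
  have hfw : ∀ n, fw p N c n = S p (c n) (N (n + 2)) := fun n => rfl
  -- partial sums of squares are at most one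
  have hpart : ∀ n k, ∑ i ∈ Finset.range n, c i k ^ 2 ≤ 1 := by
    intro n k
    have hk : k < N (max n (k + 1)) := by
      have h1 : k + 1 ≤ N (k + 1) := hNm.id_le (k + 1)
      have h2 : N (k + 1) ≤ N (max n (k + 1)) := hNm.monotone (le_max_right _ _)
      omega
    rw [← hc1 k _ hk]
    apply Finset.sum_le_sum_of_subset_of_nonneg (Finset.range_mono (le_max_left _ _))
    intro i _ _
    positivity
  have hcle : ∀ n k, c n k ≤ 1 := by
    intro n k
    have h1 := hpart (n + 1) k
    rw [Finset.sum_range_succ] at h1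
    have h2 : 0 ≤ ∑ i ∈ Finset.range n, c i k ^ 2 := Finset.sum_nonneg (fun i _ => by positivity)
    have h3 := hc0 n k
    by_contra hcc
    push Not at hcc
    nlinarith
  have hSD : ∀ (a : ℕ → ℝ) (L : ℕ), S p a L ∈ D := by
    intro a L
    unfold S
    apply sum_mem
    intro k _
    apply SMulMemClass.smul_mem
    exact sub_mem (hp (k + 1)).1 (hp k).1
  have hsq : ∀ n, ∑ i ∈ Finset.range n, fw p N c i * fw p N c i =
      S p (fun k => ∑ i ∈ Finset.range n, c i k ^ 2) (N (n + 1)) := by
    intro n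
    rw [← S_sum]
    apply Finset.sum_congr rfl
    intro i hi
    rw [Finset.mem_range] at hi
    rw [hfw, S_ext (a := c i) (L' := N (n + 1)) (hNm.monotone (by omega))
      (fun k hk => hcz i k (Or.inr hk)), S_mul h]
    apply S_congr
    intro k _
    exact (sq (c i k)).symm
  have hnorm : ∀ n, ‖∑ i ∈ Finset.range n, fw p N c i * fw p N c i‖ ≤ 1 := by
    intro n
    rw [hsq]
    exact S_norm h _ _ (fun k => Finset.sum_nonneg (fun i _ => by positivity)) (hpart n)
  refine ⟨?_, hnorm, ?_⟩
  · intro n
    refine ⟨?_, ?_, ?_, ?_, ?_⟩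
    · rw [hfw]
      exact hSD _ _
    · rw [hfw]
      exact S_star h _ _
    · rw [hfw]
      exact S_norm h _ _ (hc0 n) (hcle n)
    · rw [hfw]
      have h1 := S_mul h (fun k => if k < N (n + 2) then 1 else 0) (c n) (N (n + 2))
      rw [S_one h _ _ le_rfl] at h1
      rw [h1]
      apply S_congr
      intro k hk
      rw [if_pos hk, one_mul]
    · rw [hfw]
      have h1 := S_mul h (c n) (fun k => if k < N n then 1 else 0) (N (n + 2))
      rw [S_one h _ _ (hNm.monotone (by omega))] at h1
      rw [h1]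
      have h2 : S p (fun k => c n k * if k < N n then 1 else 0) (N (n + 2)) =
          S p (fun _ => 0) (N (n + 2)) := by
        apply S_congr
        intro k hk
        by_cases hk' : k < N n
        · rw [hcz n k (Or.inl hk'), zero_mul]
        · rw [if_neg hk', mul_zero]
      rw [h2]
      unfold S
      simp
  · intro d hd
    have hR : ∀ n, (∑ i ∈ Finset.range n, fw p N c i * fw p N c i) * p (N n) = p (N n) := by
      intro n
      rw [hsq]
      have h1 := S_mul h (fun k => ∑ i ∈ Finset.range n, c i k ^ 2)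
        (fun k => if k < N n then 1 else 0) (N (n + 1))
      rw [S_one h (N n) (N (n + 1)) (hN n).le] at h1
      rw [h1]
      have h2 := S_one h (N n) (N (n + 1)) (hN n).le
      refine Eq.trans ?_ h2
      apply S_congr
      intro k _
      by_cases hk' : k < N n
      · rw [hc1 k n hk', one_mul]
      · rw [if_neg hk', mul_zero]
    have hlim : Tendsto (fun n => p (N n) * d) atTop (𝓝 d) :=
      (htend d hd).comp hNm.tendsto_atTop
    have hlim2 : Tendsto (fun n => 2 * ‖d - p (N n) * d‖) atTop (𝓝 0) := by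
      have h1 : Tendsto (fun n => d - p (N n) * d) atTop (𝓝 (d - d)) :=
        tendsto_const_nhds.sub hlim
      have h2 := (h1.norm).const_mul 2
      rwa [sub_self, norm_zero, mul_zero] at h2
    rw [tendsto_iff_norm_sub_tendsto_zero]
    refine squeeze_zero (fun n => norm_nonneg _) (fun n => ?_) hlim2
    have e : (∑ i ∈ Finset.range n, fw p N c i * fw p N c i) * d - d =
        (∑ i ∈ Finset.range n, fw p N c i * fw p N c i) * (d - p (N n) * d) -
          (d - p (N n) * d) := by
      rw [mul_sub, ← mul_assoc, hR]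
      abel
    rw [e]
    have h1 : ‖(∑ i ∈ Finset.range n, fw p N c i * fw p N c i) * (d - p (N n) * d)‖ ≤
        ‖d - p (N n) * d‖ := by
      refine (norm_mul_le _ _).trans ?_
      have := mul_le_mul_of_nonneg_right (hnorm n) (norm_nonneg (d - p (N n) * d))
      rwa [one_mul] at this
    have h2 := norm_sub_le ((∑ i ∈ Finset.range n, fw p N c i * fw p N c i) *
      (d - p (N n) * d)) (d - p (N n) * d)
    linarith

end Pool.Agent.Helper32.AE.FWA
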